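import Pool.Agent.J4.H6.FR.Rel
import Pool.Agent.N993.CP.Desc

/-!
# Descent of Tate characters to degrees with squarefree odd part
-/

set_option linter.unusedSectionVars false

namespace Pool.Agent.J4.H6.FR

open Finset Pool.Agent.H916R2 Pool.Agent.H916T Pool.Agent.H916U Pool.Agent.H916Z Pool.Agent.H916Q
  Pool.Agent.H916Y Pool.Agent.N214.FT Pool.Agent.N993.CP

/-- the prime divisors of `m` lie in `S` -/
def Lv (S : Finset ℕ) (m : ℕ) : Prop := 0 < m ∧ ∀ q : ℕ, q.Prime → q ∣ m → q ∈ S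

lemma Lv.mul {S : Finset ℕ} {a b : ℕ} (ha : Lv S a) (hb : Lv S b) : Lv S (a * b) := by
  refine ⟨Nat.mul_pos ha.1 hb.1, ?_⟩
  intro q hq hqab
  rcases (hq.dvd_mul).mp hqab with h | h
  · exact ha.2 q hq h
  · exact hb.2 q hq h

lemma Lv.one {S : Finset ℕ} : Lv S 1 :=
  ⟨one_pos, fun _ hq hq1 => absurd (Nat.dvd_one.mp hq1) hq.one_lt.ne'⟩

lemma Lv.coprime {p : ℕ} (hp : p.Prime) {S : Finset ℕ} (hpS : p ∉ S) {m : ℕ} (h : Lv S m) :
    p.Coprime m := by
  rw [hp.coprime_iff_not_dvd]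
  exact fun hpm => hpS (h.2 p hp hpm)

/-- the product of the odd primes of `S` -/
def op (S : Finset ℕ) : ℕ := ∏ q ∈ S.erase 2, q

lemma op_pos {S : Finset ℕ} (hS : ∀ q ∈ S, q.Prime) : 0 < op S :=
  Finset.prod_pos fun q hq => (hS q (mem_of_mem_erase hq)).pos

lemma op_odd {S : Finset ℕ} (hS : ∀ q ∈ S, q.Prime) : Odd (op S) := by
  rw [← Nat.not_even_iff_odd, even_iff_two_dvd]
  intro h
  obtain ⟨q, hq, hjq⟩ := (Nat.prime_two.prime.dvd_finsetProd_iff _).mp h
  have h1 := hS q (mem_of_mem_erase hq)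
  exact (mem_erase.mp hq).1 ((Nat.prime_dvd_prime_iff_eq Nat.prime_two h1).mp hjq).symm

lemma lv_op {S : Finset ℕ} (hS : ∀ q ∈ S, q.Prime) : Lv S (op S) := by
  refine ⟨op_pos hS, ?_⟩
  intro q hq hqb
  obtain ⟨r, hr, hqr⟩ := (hq.prime.dvd_finsetProd_iff _).mp hqb
  have hr' := mem_of_mem_erase hr
  rwa [(Nat.prime_dvd_prime_iff_eq hq (hS r hr')).mp hqr]

lemma lv_two_pow {S : Finset ℕ} (h2 : 2 ∈ S) (k : ℕ) : Lv S (2 ^ k) := by
  refine ⟨by positivity, ?_⟩
  intro q hq hqk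
  rwa [(Nat.prime_dvd_prime_iff_eq hq Nat.prime_two).mp (hq.dvd_of_dvd_pow hqk)]

lemma two_dvd_order {m e : ℕ} {x : ZMod m} (hx : x ≠ 0) (h : (2 ^ e) • x = 0) :
    2 ∣ addOrderOf x := by
  have h1 : addOrderOf x ∣ 2 ^ e := addOrderOf_dvd_of_nsmul_eq_zero h
  obtain ⟨i, _, hi⟩ := (Nat.dvd_prime_pow Nat.prime_two).mp h1
  rw [hi]
  cases i with
  | zero =>
    exfalso
    rw [pow_zero, AddMonoid.addOrderOf_eq_one_iff] at hi
    exact hx hi
  | succ i => exact Dvd.intro_left _ (pow_succ 2 i).symm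

lemma W_of_WW {p m : ℕ} [NeZero m] {o : ℕ} (hpm : p.Coprime m) (ho : 0 < o)
    (hf : (p : ZMod m) ^ o = 1)
    {s : Multiset (ZMod m)} (h : ∀ t : (ZMod m)ˣ,
      (s.map fun a => WW (p : ZMod m) o ((t : ZMod m) * a)).sum = 0) : Rel0 p s := by
  intro t
  obtain ⟨c, hc⟩ := orderOf_dvd_of_pow_eq_one hf
  have hc0 : (c : ℤ) ≠ 0 := by
    intro h1
    have h2 : c = 0 := by exact_mod_cast h1
    rw [h2, mul_zero] at hc
    omega
  have h1 : ∀ x : ZMod m, WW (p : ZMod m) o x = c * W p x := by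
    intro x
    rw [hc, mul_comm, WW_mul (pow_orderOf_eq_one _), W_eq_WW]
  have h2 := h t
  simp only [h1] at h2
  rw [Multiset.sum_map_mul_left] at h2
  exact (mul_eq_zero.mp h2).resolve_left hc0

open scoped Classical in
theorem descend {p : ℕ} (hp : p.Prime) {S : Finset ℕ} (hS : ∀ q ∈ S, q.Prime) (hpS : p ∉ S)
    {m : ℕ} (hm : Lv S m) {c : Multiset (ZMod m)} (hc : IsTate p m c) :
    ∃ (k : ℕ) (c' : Multiset (ZMod (2 ^ k * op S))), (2 ∉ S → k = 0) ∧ IsTate p _ c' ∧
      ∀ K : Finset ℕ, K.Nonempty → 2 ∉ K →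
        (Even (c'.countP (Supp K)) ↔ Even (c.countP (Supp K))) := by
  have hmpos := hm.1
  have hzm : NeZero m := ⟨hmpos.ne'⟩
  have hpm : p.Coprime m := hm.coprime hp hpS
  obtain ⟨a, m1, hm1, hmm⟩ := Nat.exists_eq_two_pow_mul_odd hmpos.ne'
  have ha0 : 2 ∉ S → a = 0 := by
    intro h2
    by_contra ha
    apply h2
    apply hm.2 2 Nat.prime_two
    rw [hmm]
    exact (dvd_pow_self 2 ha).mul_right _
  set O := op S with hO
  have hOpos : 0 < O := op_pos hS
  have hOodd : Odd O := op_odd hS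
  set m0 := 2 ^ a * O with hm0
  have hm0pos : 0 < m0 := Nat.mul_pos (by positivity) hOpos
  have hz0 : NeZero m0 := ⟨hm0pos.ne'⟩
  have hm1pos : 0 < m1 := hm1.pos
  set m2 := m1 * m0 with hm2
  have hz2 : NeZero m2 := ⟨(Nat.mul_pos hm1pos hm0pos).ne'⟩
  have hOm : O * m = m2 := by rw [hm2, hm0, hmm]; ring
  have hL2 : Lv S m2 := by rw [← hOm]; exact (lv_op hS).mul hm
  have hp2 : p.Coprime m2 := hL2.coprime hp hpS
  have hp0 : p.Coprime m0 := Nat.Coprime.coprime_dvd_right (Dvd.intro_left _ rfl) hp2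
  set c2 := c.map (iota O : ZMod m → ZMod m2) with hc2
  have hT2 : IsTate p m2 c2 := isTate_iota hOm hp2 hc
  set o := orderOf (p : ZMod m2) with ho
  have hopos : 0 < o := H916T.order_pos hp2
  obtain ⟨s0, ⟨hs00, hs0e, hs0W⟩, hs0c⟩ := descent (m0 := m0) (h := p) (o := o) m1 m2 rfl (by
    intro q hq hqm1
    have hq2 : q ≠ 2 := by
      rintro rfl
      exact (Nat.not_even_iff_odd.mpr hm1) (even_iff_two_dvd.mpr hqm1)
    refine ⟨hq2, ?_⟩
    have h1 : q ∈ S := hm.2 q hq (by rw [hmm]; exact hqm1.mul_left _)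
    exact ((Finset.dvd_prod_of_mem (fun q => q) (mem_erase.mpr ⟨hq2, h1⟩) : q ∣ O)).mul_left _)
    hp2 c2 ⟨hT2.1, hT2.2.1, fun t => by
      have := hT2.W_sum hp2 t
      simpa only [W_eq_WW] using this⟩
  have hpo : (p : ZMod m0) ^ o = 1 := by
    have h1 : ((p ^ o : ℕ) : ZMod m2) = ((1 : ℕ) : ZMod m2) := by
      push_cast; exact pow_orderOf_eq_one _
    have h2 : p ^ o ≡ 1 [MOD m2] := (ZMod.natCast_eq_natCast_iff _ _ _).mp h1
    have h3 : p ^ o ≡ 1 [MOD m0] := h2.of_dvd (Dvd.intro_left _ rfl)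
    have h4 := (ZMod.natCast_eq_natCast_iff _ _ _).mpr h3
    push_cast at h4
    exact h4
  have hrel0 : Rel0 p s0 := W_of_WW hp0 hopos hpo hs0W
  -- the odd multiple
  set s1 := O • s0 with hs1
  have hrel1 : Rel0 p s1 := by
    intro t
    rw [hs1, map_nsmul_sum, hrel0 t, smul_zero]
  have h01 : (0 : ZMod m0) ∉ s1 := by
    rw [hs1, Multiset.mem_nsmul]; exact fun h => hs00 h.2
  have heven1 : Even (Multiset.card s1) := by
    rw [hs1, Multiset.card_nsmul]; exact hs0e.mul_left _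
  have hcount1 : ∀ K : Finset ℕ, Even (s1.countP (Supp K)) ↔ Even (c.countP (Supp K)) := by
    intro K
    rw [hs1, Multiset.countP_nsmul, ← countP_iota hOm c K, ← hs0c K, Nat.even_mul]
    constructor
    · rintro (h | h)
      · exact absurd h (Nat.not_even_iff_odd.mpr hOodd)
      · exact h
    · exact Or.inr
  set σ := s1.sum with hσ
  have hσ2 : (2 ^ a) • σ = 0 := by
    have h1 : σ = O • s0.sum := by
      rw [hσ, hs1]
      have := map_nsmul_sum (fun a : ZMod m0 => a) O s0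
      simpa using this
    rw [h1, ← mul_nsmul', ← hm0, nsmul_eq_mul]
    simp
  by_cases hσ0 : σ = 0
  · refine ⟨a, s1, ha0, isTate_of_W hp0 h01 heven1 hσ0 hrel1, fun K _ _ => hcount1 K⟩
  · have h2S : 2 ∈ S := by
      by_contra h2
      apply hσ0
      have h3 := hσ2
      rw [ha0 h2, pow_zero, one_smul] at h3
      exact h3
    have hp2' : p ≠ 2 := fun h => hpS (h ▸ h2S)
    have hp1 : p - 1 ≠ 0 := by have := hp.one_lt; omega
    obtain ⟨b, u, hu, hpu⟩ := Nat.exists_eq_two_pow_mul_odd hp1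
    set m3 := 2 ^ (b + a) * O with hm3
    have hm3' : 2 ^ b * m0 = m3 := by rw [hm3, hm0, pow_add]; ring
    have hL3 : Lv S m3 := (lv_two_pow h2S _).mul (lv_op hS)
    have hz3 : NeZero m3 := ⟨hL3.1.ne'⟩
    have hp3 : p.Coprime m3 := hL3.coprime hp hpS
    have hcu : Nat.Coprime u (2 ^ (a + b)) := by
      apply Nat.Coprime.pow_right
      rw [Nat.coprime_comm, Nat.prime_two.coprime_iff_not_dvd]
      exact fun h => (Nat.not_even_iff_odd.mpr hu) (even_iff_two_dvd.mpr h)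
    -- the inverse of `u`
    obtain ⟨u', t, hut⟩ : ∃ u' t : ℤ, (u : ℤ) * u' + (2 ^ (a + b) : ℤ) * t = 1 := by
      have h1 : IsCoprime (u : ℤ) ((2 ^ (a + b) : ℕ) : ℤ) := Nat.isCoprime_iff_coprime.mpr hcu
      obtain ⟨x, y, hxy⟩ := h1
      refine ⟨x, y, ?_⟩
      push_cast at hxy
      linarith
    set v : ZMod m3 := ((σ.val : ℕ) : ZMod m3) with hv
    have hv2 : (2 : ZMod m3) ^ (a + b) * v = 0 := by
      have h1 : m0 ∣ 2 ^ a * σ.val := by
        rw [← ZMod.natCast_eq_zero_iff]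
        push_cast
        rw [ZMod.natCast_zmod_val]
        rw [nsmul_eq_mul] at hσ2
        push_cast at hσ2
        exact hσ2
      have h2 : m3 ∣ 2 ^ (a + b) * σ.val := by
        rw [← hm3', pow_add]
        have h3 := Nat.mul_dvd_mul_left (2 ^ b) h1
        have h4 : 2 ^ a * 2 ^ b * σ.val = 2 ^ b * (2 ^ a * σ.val) := by ring
        rw [h4]; exact h3
      have h5 : ((2 ^ (a + b) * σ.val : ℕ) : ZMod m3) = 0 :=
        (ZMod.natCast_eq_zero_iff _ _).mpr h2
      push_cast at h5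
      exact h5
    have hiσ : (iota (2 ^ b) σ : ZMod m3) = 2 ^ b * v := by
      unfold iota; rw [hv]; push_cast; ring
    set x : ZMod m3 := -((u' : ZMod m3) * v) with hx
    have hpx : (p : ZMod m3) * x - x = - (iota (2 ^ b) σ : ZMod m3) := by
      have h1 : (p : ZMod m3) = 2 ^ b * (u : ZMod m3) + 1 := by
        have h2 : p = 2 ^ b * u + 1 := by
          have := hp.one_lt
          omega
        conv_lhs => rw [h2]
        push_cast; ring
      have h3 : (u : ZMod m3) * (u' : ZMod m3) + 2 ^ (a + b) * (t : ZMod m3) = 1 := by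
        have h4 := congrArg (Int.cast : ℤ → ZMod m3) hut
        push_cast at h4
        exact h4
      rw [hiσ, h1, hx]
      linear_combination (-(2 : ZMod m3) ^ b * v) * h3 + (2 : ZMod m3) ^ b * t * hv2
    have hx0 : x ≠ 0 := by
      intro h
      rw [h, mul_zero, sub_zero] at hpx
      exact hσ0 (iota_eq_zero hm3' (neg_eq_zero.mp hpx.symm))
    have hpu3 : IsUnit (p : ZMod m3) := isUnit_p hp3
    have hpx0 : (p : ZMod m3) * x ≠ 0 := fun h => hx0 ((hpu3.mul_right_eq_zero).mp h)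
    have hx2 : (2 ^ (a + b)) • x = 0 := by
      rw [nsmul_eq_mul, hx]
      push_cast
      linear_combination (-(u' : ZMod m3)) * hv2
    have hpx2 : (2 ^ (a + b)) • ((p : ZMod m3) * x) = 0 := by
      rw [← mul_smul_comm, hx2, mul_zero]
    have hnx2 : (2 ^ (a + b)) • (-x) = 0 := by rw [smul_neg, hx2, neg_zero]
    have hsupp : ∀ K : Finset ℕ, 2 ∉ K → ∀ y : ZMod m3, y ≠ 0 → (2 ^ (a + b)) • y = 0 →
        ¬ Supp K y := by
      intro K hK y hy hy2 h
      apply hK
      unfold Supp at h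
      rw [← h]
      exact Nat.mem_primeFactors.mpr ⟨Nat.prime_two, two_dvd_order hy hy2, (addOrderOf_pos y).ne'⟩
    set s2 : Multiset (ZMod m3) := s1.map (iota (2 ^ b) : ZMod m0 → ZMod m3) with hs2
    refine ⟨b + a, s2 + ((p : ZMod m3) * x ::ₘ -x ::ₘ 0), fun h => absurd h2S h, ?_, ?_⟩
    · have hrel2 : Rel0 p s2 := hrel1.iota hm3'
      refine isTate_of_W hp3 ?_ ?_ ?_ ?_
      · rw [Multiset.mem_add, not_or]
        constructor
        · intro h
          obtain ⟨y, hy, hy0⟩ := Multiset.mem_map.mp h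
          rw [iota_eq_zero hm3' hy0] at hy
          exact h01 hy
        · rw [Multiset.mem_cons, Multiset.mem_cons]
          rintro (h | h | h)
          · exact hpx0 h.symm
          · exact hx0 (neg_eq_zero.mp h.symm)
          · simp at h
      · rw [Multiset.card_add, hs2, Multiset.card_map]
        exact heven1.add (by rw [Multiset.card_cons, Multiset.card_cons, Multiset.card_zero]; decide)
      · rw [Multiset.sum_add, hs2, sum_iota hm3', ← hσ, Multiset.sum_cons, Multiset.sum_cons,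
          Multiset.sum_zero]
        linear_combination hpx
      · intro t
        rw [Multiset.map_add, Multiset.sum_add, hrel2 t, Multiset.map_cons, Multiset.map_cons,
          Multiset.map_zero, Multiset.sum_cons, Multiset.sum_cons, Multiset.sum_zero]
        have h1 : (t : ZMod m3) * ((p : ZMod m3) * x) = (p : ZMod m3) * ((t : ZMod m3) * x) := by
          ring
        have h3 : (t : ZMod m3) * (-x) = -((t : ZMod m3) * x) := mul_neg _ _
        rw [h1, h3, W_mul, W_neg, add_zero, zero_add, add_neg_cancel]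
    · intro K hK hK2
      rw [Multiset.countP_add, Multiset.countP_cons, Multiset.countP_cons, Multiset.countP_zero,
        if_neg (hsupp K hK2 _ hpx0 hpx2), if_neg (hsupp K hK2 _ (neg_ne_zero.mpr hx0) hnx2), hs2,
        countP_iota hm3']
      simp only [add_zero]
      exact hcount1 K

end Pool.Agent.J4.H6.FR
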