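import Pool.Agent.J4.H6.FR.Dich
import Pool.Agent.J4.H6.FR.Desc

/-!
# Elimination of the parities by finitely many classes
-/

set_option linter.unusedSectionVars false

namespace Pool.Agent.J4.H6.FR

open Finset Pool.Agent.H916R2 Pool.Agent.H916T Pool.Agent.H916U Pool.Agent.H916Z Pool.Agent.H916Q
  Pool.Agent.H916Y Pool.Agent.N214.FT

open scoped Classical in
/-- `c` is a Tate character of degree `m` with an odd parity at the support of `n`, and all parities
of larger numbers are even. -/
def Wit (p : ℕ) (S : Finset ℕ) (n m : ℕ) (c : Multiset (ZMod m)) : Prop :=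
  Lv S m ∧ IsTate p m c ∧ Odd (c.countP (Supp n.primeFactors)) ∧
    ∀ K : Finset ℕ, K.Nonempty → 2 ∉ K → ¬ Dead p K → n < ∏ q ∈ K, q →
      Even (c.countP (Supp K))

lemma supp_primes {M : ℕ} [NeZero M] {K : Finset ℕ} {a : ZMod M} (h : Supp K a) :
    (∀ q ∈ K, q.Prime) ∧ K ⊆ M.primeFactors ∧ K = (∏ q ∈ K, q).primeFactors := by
  have h1 : ∀ q ∈ K, q.Prime := by
    intro q hq
    unfold Supp at h
    rw [← h] at hq
    exact Nat.prime_of_mem_primeFactors hq
  exact ⟨h1, supp_sub h, (Nat.primeFactors_prod h1).symm⟩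

lemma supp_primes' {M : ℕ} [NeZero M] {K : Finset ℕ} {s : Multiset (ZMod M)}
    [DecidablePred (Supp K : ZMod M → Prop)]
    (h : ¬ Even (s.countP (Supp K))) :
    (∀ q ∈ K, q.Prime) ∧ K ⊆ M.primeFactors ∧ K = (∏ q ∈ K, q).primeFactors := by
  have h1 : 0 < s.countP (Supp K) := by
    rcases Nat.eq_zero_or_pos (s.countP (Supp K)) with h2 | h2
    · rw [h2] at h; exact absurd Even.zero h
    · exact h2
  obtain ⟨a, _, ha⟩ := Multiset.countP_pos.mp h1
  exact supp_primes ha

variable {p M : ℕ}

open scoped Classical in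
theorem algo {md : Prop} [NeZero M] (hpM : p.Coprime M) {S : Finset ℕ}
    (hM : Lv S M) (U : Finset ℕ)
    (hU : ∀ n : ℕ, Squarefree n → Odd n → 1 < n → n ∣ M → ¬ Settled md p M n → n ∈ U)
    (e : ℕ → Multiset (ZMod M)) (he : ∀ n, IsTate p M (e n))
    (he2 : ∀ n ∈ U, (∃ (m : ℕ) (c : Multiset (ZMod m)), Wit p S n m c) → Wit p S n M (e n))
    {s : Multiset (ZMod M)} (hs : IsTate p M s) (j : ℕ) (hj : j ≤ ∏ q ∈ M.primeFactors, q) :
    ∃ l : Multiset (Multiset (ZMod M)), (∀ x ∈ l, (md ∧ ModularTate p M x) ∨ ∃ n ∈ U, x = e n) ∧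
      ∀ K : Finset ℕ, K.Nonempty → 2 ∉ K → ¬ Dead p K →
        (∏ q ∈ M.primeFactors, q) + 1 ≤ (∏ q ∈ K, q) + j → Even ((s + l.sum).countP (Supp K)) := by
  set B := ∏ q ∈ M.primeFactors, q with hB
  have hBpos : 0 < B := Finset.prod_pos fun q hq => (Nat.prime_of_mem_primeFactors hq).pos
  have hle : ∀ K : Finset ℕ, K ⊆ M.primeFactors → ∏ q ∈ K, q ≤ B := fun K hK =>
    Nat.le_of_dvd hBpos (Finset.prod_dvd_prod_of_subset _ _ _ hK)
  induction j with
  | zero =>
    refine ⟨0, by simp, ?_⟩
    intro K _ _ _ hc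
    by_contra hodd
    have h1 := hle K (supp_primes' hodd).2.1
    omega
  | succ j ih =>
    obtain ⟨l, hl, hl2⟩ := ih (by omega)
    have hTe : ∀ x ∈ l, IsTate p M x := by
      intro x hx
      rcases hl x hx with h | ⟨n, _, rfl⟩
      · exact h.2.1
      · exact he n
    have hT : IsTate p M (s + l.sum) := isTate_add hpM hs (isTate_msum hpM l hTe)
    have hrel : Rel0 p (s + l.sum) := fun t => hT.W_sum hpM t
    by_cases hex : ∃ K : Finset ℕ, K.Nonempty ∧ 2 ∉ K ∧ ¬ Dead p K ∧ ∏ q ∈ K, q = B - j ∧
        ¬ Even ((s + l.sum).countP (Supp K))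
    · obtain ⟨T, hne, h2, hD, hn, hodd⟩ := hex
      obtain ⟨hpr, hTM, hTn⟩ := supp_primes' hodd
      set n := ∏ q ∈ T, q with hndef
      have hlt : ∀ K : Finset ℕ, K ⊆ T → n < ∏ q ∈ K, q → False := by
        intro K hK h
        have h1 : ∏ q ∈ K, q ≤ n := Nat.le_of_dvd
          (Finset.prod_pos fun q hq => (hpr q hq).pos)
          (Finset.prod_dvd_prod_of_subset _ _ _ hK)
        omega
      -- the new element
      obtain ⟨x, hx, hxodd, hxeven⟩ : ∃ x : Multiset (ZMod M),
          ((md ∧ ModularTate p M x) ∨ ∃ n ∈ U, x = e n) ∧ Odd (x.countP (Supp T)) ∧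
          ∀ K : Finset ℕ, K.Nonempty → 2 ∉ K → ¬ Dead p K → n < ∏ q ∈ K, q →
            Even (x.countP (Supp K)) := by
        have hsq : Squarefree n := by
          rw [hndef]
          exact Finset.squarefree_prod_of_pairwise_isCoprime (fun q hq r hr hqr => by
            show IsRelPrime q r
            rw [← Nat.coprime_iff_isRelPrime]
            exact (Nat.coprime_primes (hpr q hq) (hpr r hr)).mpr hqr)
            (fun q hq => (hpr q hq).squarefree)
        have hodd' : Odd n := by
          rw [← Nat.not_even_iff_odd, even_iff_two_dvd]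
          intro h
          obtain ⟨q, hq, hjq⟩ := (Nat.prime_two.prime.dvd_finsetProd_iff _).mp h
          rw [(Nat.prime_dvd_prime_iff_eq Nat.prime_two (hpr q hq)).mp hjq] at h2
          exact h2 hq
        have hn1 : 1 < n := by
          obtain ⟨q, hq⟩ := hne
          have h3 := (hpr q hq).one_lt
          have h4 := Nat.le_of_dvd hodd'.pos (Finset.dvd_prod_of_mem (fun q => q) hq)
          exact lt_of_lt_of_le h3 h4
        have hnM : n ∣ M := (Finset.prod_dvd_prod_of_subset _ _ _ hTM).trans
          (Nat.prod_primeFactors_dvd M)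
        by_cases hset : Settled md p M n
        · rcases dich hpM hTM hne h2 hD hset with ⟨hmd, x, hx1, hx2, hx3⟩ | h
          · exact ⟨x, Or.inl ⟨hmd, hx1⟩, hx2, fun K hK hK2 _ hK3 =>
              hx3 K hK hK2 (fun hsub => hlt K hsub hK3)⟩
          · exfalso
            apply hodd
            apply h _ hrel
            intro V hV hV2
            by_contra hVodd
            obtain ⟨hVpr, hVM, _⟩ := supp_primes' hVodd
            apply hVodd
            apply hl2 V (hne.mono hV.1) hV2 (fun h6 => hD (dead_mono hV.1 h6))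
            have h7 : n < ∏ q ∈ V, q := by
              obtain ⟨q, hq, hqT⟩ := Finset.exists_of_ssubset hV
              have h8 : ∏ r ∈ insert q T, r ≤ ∏ r ∈ V, r := by
                apply Nat.le_of_dvd (Finset.prod_pos fun q hq => (hVpr q hq).pos)
                apply Finset.prod_dvd_prod_of_subset
                exact Finset.insert_subset hq hV.1
              rw [Finset.prod_insert hqT] at h8
              have h9 := (hVpr q hq).two_le
              have h10 : 0 < n := by omega
              calc n < 2 * n := by omega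
                _ ≤ q * ∏ r ∈ T, r := Nat.mul_le_mul_right _ h9
                _ ≤ _ := h8
            omega
        · have hnU := hU n hsq hodd' hn1 hnM hset
          have hw : Wit p S n M (s + l.sum) := by
            refine ⟨hM, hT, ?_, ?_⟩
            · rw [← hTn, ← Nat.not_even_iff_odd]; exact hodd
            · intro K hK hK2 hKD hK3
              exact hl2 K hK hK2 hKD (by omega)
          have h5 := he2 n hnU ⟨M, _, hw⟩
          refine ⟨e n, Or.inr ⟨n, hnU, rfl⟩, ?_, h5.2.2.2⟩
          have h6 := h5.2.2.1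
          rwa [← hTn] at h6
      refine ⟨l + {x}, ?_, ?_⟩
      · intro y hy
        rcases Multiset.mem_add.mp hy with hy | hy
        · exact hl y hy
        · rw [Multiset.mem_singleton.mp hy]; exact hx
      · intro K hK hK2 hKD hc
        rw [Multiset.sum_add, Multiset.sum_singleton, ← add_assoc, Multiset.countP_add]
        by_cases hKn : ∏ q ∈ K, q = n
        · by_cases hKT : K = T
          · rw [hKT]
            rw [Nat.not_even_iff_odd] at hodd
            exact hodd.add_odd hxodd
          · have h0 : ∀ y : Multiset (ZMod M), Even (y.countP (Supp K)) := by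
              intro y
              by_contra hy
              apply hKT
              rw [(supp_primes' hy).2.2, hKn, hTn]
            exact (h0 _).add (h0 _)
        · have h3 : n < ∏ q ∈ K, q := by omega
          exact (hl2 K hK hK2 hKD (by omega)).add (hxeven K hK hK2 hKD h3)
    · refine ⟨l, hl, ?_⟩
      intro K hK hK2 hKD hc
      by_contra hodd
      by_cases hc' : B + 1 ≤ (∏ q ∈ K, q) + j
      · exact hodd (hl2 K hK hK2 hKD hc')
      · exact hex ⟨K, hK, hK2, hKD, by omega, hodd⟩

end Pool.Agent.J4.H6.FR
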