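import Pool.Agent.J4.H6.FR.Rel

/-!
# The dichotomy

For a support of a settled number there is a modular Tate character with one odd parity, or a parity
relation.
-/

set_option linter.unusedSectionVars false

namespace Pool.Agent.J4.H6.FR

open Finset Pool.Agent.H916R2 Pool.Agent.H916T Pool.Agent.H916U Pool.Agent.H916Z Pool.Agent.H916Q
  Pool.Agent.H916Y Pool.Agent.N214.FT

/-- The numbers whose supports need no new class at the level `L`; the modular Tate characters are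
admitted if `md` holds. -/
def Settled (md : Prop) (p L n : ℕ) : Prop :=
  (∃ k : ℕ, n ∣ p ^ k + 1) ∨
  (n % 4 = 3 ∧ jacobiSym p n = 1 ∧ (2 ∣ L → jacobiSym 2 n = 1) ∧
    ∀ j : ℕ, j.Prime → j ∣ L → j ≠ 2 → ¬ j ∣ n → jacobiSym j n = -1 → j % 4 = 3) ∨
  (md ∧ (∀ q : ℕ, q.Prime → q ∣ n → q % 4 = 3) ∧
    (n % 4 = 1 ∨ jacobiSym p n = -1 ∨ (4 ∣ L ∧ jacobiSym 2 n = -1))) ∨
  TH540.SqEven p L n

lemma Settled.mono {md : Prop} {p L M n : ℕ} (h : Settled md p L n)
    (h1 : ∀ q : ℕ, q.Prime → q ∣ M → q ∣ L) (h4 : 4 ∣ L → 4 ∣ M) (h4' : 4 ∣ M → 4 ∣ L) :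
    Settled md p M n := by
  rcases h with h | ⟨ha, hb, hc, hd⟩ | ⟨hmd, ha, hb⟩ | ⟨ha, hb, hc⟩
  · exact Or.inl h
  · exact Or.inr (Or.inl ⟨ha, hb, fun h2 => hc (h1 2 Nat.prime_two h2),
      fun j hj hjM => hd j hj (h1 j hj hjM)⟩)
  · refine Or.inr (Or.inr (Or.inl ⟨hmd, ha, ?_⟩))
    rcases hb with hb | hb | ⟨hb, hc⟩
    · exact Or.inl hb
    · exact Or.inr (Or.inl hb)
    · exact Or.inr (Or.inr ⟨h4 hb, hc⟩)
  · refine Or.inr (Or.inr (Or.inr ⟨ha, ?_, ?_⟩))
    · intro j hj hj2 hjM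
      exact hb j hj hj2 (h1 j hj hjM)
    · intro h j hj hj2 hjM
      exact hc (h4' h) j hj hj2 (h1 j hj hjM)

variable {p M : ℕ}

open scoped Classical in
theorem dich {md : Prop} [NeZero M] (hpM : p.Coprime M) {T : Finset ℕ}
    (hTM : T ⊆ M.primeFactors) (hne : T.Nonempty) (h2 : 2 ∉ T) (hD : ¬ Dead p T)
    (h : Settled md p M (∏ q ∈ T, q)) :
    (md ∧ Killer p M T) ∨ ∀ s : Multiset (ZMod M), Rel0 p s →
      (∀ V : Finset ℕ, T ⊂ V → 2 ∉ V → Even (s.countP (Supp V))) → Even (s.countP (Supp T)) := by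
  have hdvd : ∀ j : ℕ, j.Prime → (j ∣ ∏ q ∈ T, q ↔ j ∈ T) := by
    intro j hjp
    constructor
    · intro h
      obtain ⟨q, hq, hjq⟩ := (hjp.prime.dvd_finsetProd_iff _).mp h
      rwa [(Nat.prime_dvd_prime_iff_eq hjp (Nat.prime_of_mem_primeFactors (hTM hq))).mp hjq]
    · exact fun h => Finset.dvd_prod_of_mem _ h
  have hodd : Odd (∏ q ∈ T, q) := by
    rw [← Nat.not_even_iff_odd, even_iff_two_dvd, hdvd 2 Nat.prime_two]
    exact h2
  rcases h with h | ⟨h4, hJ, hj2, hj⟩ | ⟨hmd, h3, h⟩ | h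
  · exact absurd h hD
  · right
    intro s hs hV
    refine even_supp hpM hs hTM h2 hne ?_ hJ hj2 ?_ hV
    · rw [jacobiSym.at_neg_one hodd, ZMod.χ₄_nat_three_mod_four h4]
    · intro j hjM hj2 hjT hjJ
      have hjp := Nat.prime_of_mem_primeFactors hjM
      exact hj j hjp (Nat.dvd_of_mem_primeFactors hjM) hj2 (fun h' => hjT ((hdvd j hjp).mp h')) hjJ
  · left
    refine ⟨hmd, ?_⟩
    have hT3 : ∀ q ∈ T, q.Prime ∧ q % 4 = 3 := by
      intro q hq
      have hqp := Nat.prime_of_mem_primeFactors (hTM hq)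
      exact ⟨hqp, h3 q hqp ((hdvd q hqp).mpr hq)⟩
    rcases Nat.even_or_odd T.card with heven | hoddc
    · exact killer_of_even hpM hTM hT3 hne heven
    · rcases h with h | h | ⟨h, hJ⟩
      · exfalso
        have h5 := jacobi_neg_one T hT3 hoddc
        rw [jacobiSym.at_neg_one hodd, ZMod.χ₄_nat_one_mod_four h] at h5
        norm_num at h5
      · by_cases hcard : 1 < T.card
        · exact killer_of_odd hpM hTM hT3 hcard h
        · exfalso
          have h1 : T.card = 1 := by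
            have := hne.card_pos
            omega
          obtain ⟨q, rfl⟩ := Finset.card_eq_one.mp h1
          rw [prod_singleton] at h
          exact hD (dead_single (hT3 q (mem_singleton_self q)).1 (hT3 q (mem_singleton_self q)).2 h)
      · exact killer_of_four hpM h hTM hT3 hne hoddc hJ
  · right
    intro s hs _
    exact TH540.even_sq (NeZero.pos M) hpM hs hne h2 hTM hD h

end Pool.Agent.J4.H6.FR
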