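import Pool.Agent.N214.FT.Main
import Pool.Agent.TH540.MainH

/-!
# Parities of supports from quadratic characters

The level may have prime factors congruent to one modulo four.
-/

set_option linter.unusedSectionVars false

namespace Pool.Agent.J4.H6.FR

open Finset Pool.Agent.H916R2 Pool.Agent.H916T Pool.Agent.H916U Pool.Agent.H916Z Pool.Agent.H916Q
  Pool.Agent.H916Y Pool.Agent.N214.FT

variable {m : ℕ} [NeZero m]

open scoped Classical in
/-- **Evenness of the number of entries whose order has support `S`**, if this holds for the larger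
supports; the auxiliary primes that are not squares are congruent to three modulo four. -/
theorem even_supp {p : ℕ} (hp : p.Coprime m)
    {s : Multiset (ZMod m)} (hs : Rel0 p s)
    {S : Finset ℕ} (hS : S ⊆ m.primeFactors) (h2 : 2 ∉ S) (hne : S.Nonempty)
    (hneg : jacobiSym (-1) (∏ q ∈ S, q) = -1) (hp1 : jacobiSym p (∏ q ∈ S, q) = 1)
    (hj2 : 2 ∣ m → jacobiSym 2 (∏ q ∈ S, q) = 1)
    (hm3 : ∀ j ∈ m.primeFactors, j ≠ 2 → j ∉ S → jacobiSym j (∏ q ∈ S, q) = -1 → j % 4 = 3)
    (hbig : ∀ V : Finset ℕ, S ⊂ V → 2 ∉ V → Even (s.countP (Supp V))) :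
    Even (s.countP (Supp S)) := by
  have hpp : ∀ i : PF m, ¬ (i : ℕ) ∣ p := by
    intro i h
    exact not_dvd_of_coprime (Fact.out : (i : ℕ).Prime) hp (Nat.dvd_of_mem_primeFactors i.2) h
  set R : Finset (PF m) := univ.filter
    (fun j : PF m => (j : ℕ) ∉ S ∧ jacobiSym (j : ℕ) (∏ q ∈ S, q) = -1) with hR
  have hmemR : ∀ j, j ∈ R ↔ ((j : ℕ) ∉ S ∧ jacobiSym (j : ℕ) (∏ q ∈ S, q) = -1) := by
    intro j; rw [hR]; simp
  have htt : ∀ j, j ∉ FS m S → om (FS m S) (tt m j) = jacobiSym (j : ℕ) (∏ q ∈ S, q) := by
    intro j hjS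
    unfold tt
    rw [om_inv, om_vec, prod_FS hS]
    intro i hi h
    have hip : (i : ℕ).Prime := Fact.out
    have hjp : (j : ℕ).Prime := Fact.out
    have h3 : i = j := Subtype.ext ((Nat.prime_dvd_prime_iff_eq hip hjp).mp h)
    exact hjS (h3 ▸ hi)
  have hnot2 : ∀ j ∈ R, (j : ℕ) ≠ 2 := by
    intro j hj h
    have h1 := ((hmemR j).mp hj).2
    have h3 : 2 ∣ m := h ▸ Nat.dvd_of_mem_primeFactors j.2
    have h4 := hj2 h3
    rw [h] at h1
    push_cast at h1
    rw [h4] at h1
    norm_num at h1
  have hG : Gen' m (FS m S) R (om (FS m S)) := by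
    refine ⟨?_, ?_, ?_, ?_, ?_, ?_, ?_, ?_, om_par _⟩
    · intro j hj
      exact hm3 j j.2 (hnot2 j hj) ((hmemR j).mp hj).1 ((hmemR j).mp hj).2
    · intro j hj h
      exact ((hmemR j).mp hj).1 (mem_FS.mp h)
    · obtain ⟨q, hq⟩ := hne
      exact ⟨⟨q, hS hq⟩, mem_FS.mpr hq⟩
    · exact om_ind _
    · intro x
      rw [om_mul, om_sg, prod_FS hS, hneg, neg_one_mul]
    · intro i hi x
      exact om_nn _ i hi (fun h => h2 (h ▸ mem_FS.mp hi)) x
    · intro j hjS hjR x
      rw [om_mul, htt j hjS]
      have h4 : (j : ℕ) ∉ S := fun h => hjS (mem_FS.mpr h)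
      have h5 : jacobiSym (j : ℕ) (∏ q ∈ S, q) = 1 := by
        have hcop : IsCoprime ((j : ℕ) : ℤ) ((∏ q ∈ S, q : ℕ) : ℤ) := by
          rw [Nat.isCoprime_iff_coprime]
          apply Nat.Coprime.prod_right
          intro q hq
          have hjp : (j : ℕ).Prime := Fact.out
          exact (Nat.coprime_primes hjp (Nat.prime_of_mem_primeFactors (hS hq))).mpr
            (fun h => h4 (h ▸ hq))
        rcases jacobiSym.eq_one_or_neg_one (Int.isCoprime_iff_gcd_eq_one.mp hcop) with h | h
        · exact h
        · exact absurd ((hmemR j).mpr ⟨h4, h⟩) hjR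
      rw [h5, one_mul]
    · intro j hj x
      have hjS : j ∉ FS m S := fun h => ((hmemR j).mp hj).1 (mem_FS.mp h)
      rw [om_mul, htt j hjS, ((hmemR j).mp hj).2, neg_one_mul]
  have h1 := even_count' hp hs hG (fun i hi h => h2 (h ▸ mem_FS.mp hi)) (by
    intro x
    rw [om_mul, om_vec _ _ (fun i _ => hpp i), prod_FS hS, hp1, one_mul])
  -- split the count
  set A : ZMod m → Prop := fun a => FS m S ⊆ H916Q.TT m (addOrderOf a) ∧
      H916Q.TT m (addOrderOf a) ⊆ FS m S ∪ R with hA
  have hAS : ∀ a, A a → S ⊆ (addOrderOf a).primeFactors ∧ 2 ∉ (addOrderOf a).primeFactors := by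
    intro a ha
    constructor
    · intro q hq
      have h3 : (⟨q, hS hq⟩ : PF m) ∈ H916Q.TT m (addOrderOf a) := ha.1 (mem_FS.mpr hq)
      rw [mem_TT] at h3
      exact Nat.mem_primeFactors.mpr ⟨Nat.prime_of_mem_primeFactors (hS hq), h3,
        (addOrderOf_pos a).ne'⟩
    · intro h
      have h3 := (Nat.mem_primeFactors.mp h).2.1
      have h2m : 2 ∣ m := h3.trans (addOrderOf_dvd_level a)
      have h4 : (⟨2, Nat.mem_primeFactors.mpr ⟨Nat.prime_two, h2m, NeZero.ne m⟩⟩ : PF m) ∈
          H916Q.TT m (addOrderOf a) := mem_TT.mpr h3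
      rcases mem_union.mp (ha.2 h4) with h5 | h5
      · exact h2 (mem_FS.mp h5)
      · exact hnot2 _ h5 rfl
  have hSA : ∀ a, Supp S a → A a := by
    intro a ha
    have h3 := (TT_eq_iff hS a).mpr ha
    have e1 : univ.filter (fun i : PF m => (i : ℕ) ∈ S) = FS m S := rfl
    rw [e1] at h3
    rw [hA]
    simp only [h3]
    exact ⟨Subset.refl _, subset_union_left⟩
  have hsplit : s.countP A = s.countP (Supp S) + s.countP (fun a => A a ∧ ¬ Supp S a) := by
    have h3 : ∀ s : Multiset (ZMod m), s.countP A =
        s.countP (Supp S) + s.countP (fun a => A a ∧ ¬ Supp S a) := by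
      intro s
      induction s using Multiset.induction_on with
      | empty => simp
      | cons a s ih =>
        rw [Multiset.countP_cons, Multiset.countP_cons, Multiset.countP_cons, ih]
        by_cases h4 : Supp S a
        · rw [if_pos h4, if_pos (hSA a h4), if_neg (fun h => h.2 h4)]; ring
        · by_cases h5 : A a
          · rw [if_neg h4, if_pos h5, if_pos ⟨h5, h4⟩]; ring
          · rw [if_neg h4, if_neg h5, if_neg (fun h => h5 h.1)]; ring
    exact h3 s
  have hrest : Even (s.countP (fun a => A a ∧ ¬ Supp S a)) := by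
    rw [Multiset.countP_eq_card_filter]
    set s' := s.filter (fun a => A a ∧ ¬ Supp S a) with hs'
    have h3 : Even (s'.countP (fun _ => True)) := by
      refine even_of_key (fun b : ZMod m => (addOrderOf b).primeFactors) _ _ _ rfl ?_
        (fun _ _ _ _ _ => Iff.rfl)
      intro K
      rw [hs', Multiset.countP_filter]
      by_cases hK : (S ⊂ K ∧ 2 ∉ K) ∧ ∃ a, Supp K a ∧ A a
      · obtain ⟨hK, b, hbK, hbA⟩ := hK
        have h4 : s.countP (fun a => (addOrderOf a).primeFactors = K ∧ (A a ∧ ¬ Supp S a)) =
            s.countP (Supp K) := by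
          apply Multiset.countP_congr rfl
          intro a _
          simp only [eq_iff_iff]
          constructor
          · exact fun h => h.1
          · intro h
            refine ⟨h, ?_, ?_⟩
            · -- the condition only depends on the support
              have hTT : H916Q.TT m (addOrderOf a) = H916Q.TT m (addOrderOf b) := by
                have hpf : (addOrderOf a).primeFactors = (addOrderOf b).primeFactors := by
                  unfold Supp at h hbK; rw [h, hbK]
                ext i
                rw [mem_TT, mem_TT]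
                have hip : (i : ℕ).Prime := Fact.out
                constructor
                · intro h5
                  have h6 := Nat.mem_primeFactors.mpr ⟨hip, h5, (addOrderOf_pos a).ne'⟩
                  rw [hpf] at h6
                  exact Nat.dvd_of_mem_primeFactors h6
                · intro h5
                  have h6 := Nat.mem_primeFactors.mpr ⟨hip, h5, (addOrderOf_pos b).ne'⟩
                  rw [← hpf] at h6
                  exact Nat.dvd_of_mem_primeFactors h6
              change FS m S ⊆ H916Q.TT m (addOrderOf a) ∧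
                H916Q.TT m (addOrderOf a) ⊆ FS m S ∪ R
              rw [hTT]
              exact hbA
            · intro h5
              unfold Supp at h h5
              rw [h5] at h
              exact hK.1.ne h
        rw [h4]
        exact hbig K hK.1 hK.2
      · have h4 : s.countP (fun a => (addOrderOf a).primeFactors = K ∧ (A a ∧ ¬ Supp S a)) = 0 := by
          rw [Multiset.countP_eq_zero]
          rintro a _ ⟨h5, h6, h7⟩
          apply hK
          have h8 := hAS a h6
          rw [h5] at h8
          refine ⟨⟨lt_of_le_of_ne h8.1 ?_, h8.2⟩, a, h5, h6⟩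
          intro h9
          apply h7
          unfold Supp
          rw [h5, h9]
        rw [h4]; exact Even.zero
    rwa [Multiset.countP_True] at h3
  rw [hsplit] at h1
  exact (Nat.even_add.mp h1).mpr hrest


end Pool.Agent.J4.H6.FR
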